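import Pool.Agent.KS6_22.NB.Link

/-!
# L-functions of random reductions of elliptic curves, over all finite extensions

A system `ω` over a number field `K` gives at each finite place `v` the reduction
`y ^ 2 = x ^ 3 + a_v x + b_v` of an elliptic curve. Elliptic curves over `K` give such systems, and
the product of the factors `factor (baseChange L ω) w s` is then the L-function of the curve over
the finite extension `L` up to finitely many Euler factors. If all reductions are chosen at random,
independently and uniformly, this product has almost surely, for all finite extensions `L` of `K`
at once, a zero-free holomorphic extension to `Re s > 1`, and the line `Re s = 1` is its natural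
boundary.
-/

set_option autoImplicit false

open NumberField IsDedekindDomain MeasureTheory ProbabilityTheory
open Pool.Agent.KS6_22.NB

namespace Pool.Agent.Results.MP_bf61d2_nt.AlmostAllReductions

theorem result (K : Type) [Field K] [NumberField K] :
    ∀ᵐ ω : System K ∂(Measure.infinitePi fun v : HeightOneSpectrum (𝓞 K) =>
        uniformOn (Set.univ : Set (Pair v))),
      ∀ (L : IntermediateField K (AlgebraicClosure K)) [NumberField L], ∃ F : ℂ → ℂ,
        (∀ s : ℂ, 3 / 2 < s.re →
          HasProd (fun w : HeightOneSpectrum (𝓞 L) => factor (baseChange L ω) w s) (F s)) ∧
        DifferentiableOn ℂ F {s | 1 < s.re} ∧ (∀ s : ℂ, 1 < s.re → F s ≠ 0) ∧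
        NaturalBoundary F 1 :=
  ae_all K

end Pool.Agent.Results.MP_bf61d2_nt.AlmostAllReductions
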