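import Pool.Agent.KS6_22.NB.Link
import Pool.Agent.KS6_22.NB.Dense

/-!
# Limits of L-functions of elliptic curves have a natural boundary

A system `ω` over a number field `K` gives at each finite place `v` the reduction
`y ^ 2 = x ^ 3 + a_v x + b_v` of an elliptic curve. The systems form a compact space in which the
elliptic curves over `K` are dense. For a comeagre set of systems, the L-function over every finite
extension `L` of `K` has the line `Re s = 3 / 2` as its natural boundary.
-/

set_option autoImplicit false

open NumberField IsDedekindDomain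
open Pool.Agent.KS6_22.NB

namespace Pool.Agent.Results.MP_bf61d2_nt.GenericReductions

theorem result (K : Type) [Field K] [NumberField K] :
    Dense {ω : System K | ∃ a b : 𝓞 K, 4 * a ^ 3 + 27 * b ^ 2 ≠ 0 ∧ ω = ofCurve a b} ∧
    ∀ᶠ ω : System K in residual (System K),
      ∀ (L : IntermediateField K (AlgebraicClosure K)) [NumberField L], ∃ F : ℂ → ℂ,
        (∀ s : ℂ, 3 / 2 < s.re →
          HasProd (fun w : HeightOneSpectrum (𝓞 L) => factor (baseChange L ω) w s) (F s)) ∧
        DifferentiableOn ℂ F {s | 3 / 2 < s.re} ∧ (∀ s : ℂ, 3 / 2 < s.re → F s ≠ 0) ∧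
        NaturalBoundary F (3 / 2) :=
  ⟨dense_curves K, generic_all K⟩

end Pool.Agent.Results.MP_bf61d2_nt.GenericReductions
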