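import Pool.Agent.KS6_22.MF.FinA
import Pool.Agent.KS6_22.MF.Cover

/-!
# Mean values of L-functions over all elliptic curves over all number fields of given degree

Let `F` be a number field and `N ≥ 1`. A vector `c` of `N` integers of `F` gives the monic polynomial
`f = X ^ N + c_(N-1) X ^ (N-1) + … + c_0`; if it is irreducible over `F`, then `F(θ)`, `f(θ) = 0`,
is an extension of degree `N` of `F`, and two further vectors `a`, `b` give the curve
`y ^ 2 = x ^ 3 + a(θ) x + b(θ)` over `F(θ)`. Every elliptic curve over every extension of degree `N`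
of `F` has an equation of this kind (the last part of the theorem); for `F = ℚ` these are all elliptic
curves over all number fields of degree `N`. `Lfn c a b s` is the L-function of this curve over
`F(θ)` without the Euler factors at the primes which divide `6 f'(θ)`.

For all integers `m_1, …, m_r` the mean value of `∏ L(E/F(θ), s_k) ^ m_k` over all `(c, a, b)` whose
coordinates are in boxes which grow independently of each other exists in the region of absolute
convergence `Re s_k > 3/2`, and it is the product of the zeta functions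
`ζ_F(s_j + s_k - 1) ^ (m_j m_k)`, `j < k`, and `ζ_F(2 s_k - 1) ^ (m_k (m_k - 1) / 2)` and a function
which is holomorphic for `Re s_k > 3/4`, past the central point `s_k = 1`, and not zero at real
points. The zeta functions are those of the base field `F`, not of the varying field.
-/

set_option autoImplicit false

namespace Pool.Agent.Results.MP_bf61d2_nt.MeansOverAllFields

open Filter Topology NumberField Polynomial Pool.Agent.KS6_22.MF

/-- **Mean values over all elliptic curves over all extensions of degree `N` of a number field.** -/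
theorem result (F : Type) [Field F] [NumberField F] {ι : Type} [Fintype ι]
    (ω : Module.Basis ι ℤ (𝓞 F)) (N : ℕ) (hN : 0 < N) (r : ℕ) (m : Fin r → ℤ) :
    (∃ H : (Fin r → ℂ) → ℂ,
      DifferentiableOn ℂ H {s | ∀ k, 3 / 4 < (s k).re} ∧
      (∀ s : Fin r → ℂ, (∀ k, 3 / 4 < (s k).re ∧ (s k).im = 0) → H s ≠ 0) ∧
      ∀ s : Fin r → ℂ, (∀ k, 3 / 2 < (s k).re) →
        Tendsto (fun B : Fin 3 → Fin N → ι → ℕ =>
            mean (Fam ω B) fun p => ∏ k, Lfn p.1 p.2.1 p.2.2 (s k) ^ m k) atTop
          (𝓝 ((∏ p ∈ Finset.univ.filter (fun p : Fin r × Fin r => p.1 ≤ p.2),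
              dedekindZeta F (s p.1 + s p.2 - 1) ^
                (if p.1 = p.2 then m p.1 * (m p.1 - 1) / 2 else m p.1 * m p.2)) * H s))) ∧
    ∀ (L : Type) [Field L] [Algebra F L] [FiniteDimensional F L], Module.finrank F L = N →
      ∀ α β : L, 4 * α ^ 3 + 27 * β ^ 2 ≠ 0 →
        ∃ c a b : Fin N → 𝓞 F, IsCurve c a b ∧ ∃ (e : Fld c ≃ₐ[F] L) (u : L), u ≠ 0 ∧
          e (aeval (AdjoinRoot.root (fpoly c)) (pol a)) = u ^ 4 * α ∧
          e (aeval (AdjoinRoot.root (fpoly c)) (pol b)) = u ^ 6 * β := by
  classical
  refine ⟨⟨HA F N m, HA_diff hN m, fun s hs => HA_ne hN m (fun k => (hs k).1) fun k => (hs k).2,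
    fun s hs => tendsto_mainA ω hN m hs⟩, fun L _ _ _ hL α β h => covers hL α β h⟩

end Pool.Agent.Results.MP_bf61d2_nt.MeansOverAllFields
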