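import Pool.Agent.KS6_22.MF.FinB

/-!
# Mean values of the L-functions of one elliptic curve over all extensions of given degree

Let `E : y ^ 2 = x ^ 3 + a x + b` be an elliptic curve over a number field `F`, with `a`, `b`
integers of `F`, and `N ≥ 2`. A vector `c` of `N` integers of `F` gives the monic polynomial
`f = X ^ N + c_(N-1) X ^ (N-1) + … + c_0`; if it is irreducible over `F`, then `F(θ)`, `f(θ) = 0`, is
an extension of degree `N` of `F`, and all extensions of degree `N` arise. For most `c` the Galois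
closure has the symmetric group as its Galois group, and for `N ≥ 5` nothing is known on the
continuation of `L(E/F(θ), s)`.

For all integers `m_1, …, m_r` the mean value of `∏ L(E/F(θ), s_k) ^ m_k` over all `c` with
coordinates in boxes which grow independently of each other exists in the region of absolute
convergence `Re s_k > 3/2`, and it is there

`∏_k L(E/F, s_k) ^ m_k · ∏_{j < k} (ζ_F(s_j + s_k - 1) L(Sym² E, s_j + s_k)) ^ (m_j m_k)
  · ∏_k ζ_F(2 s_k - 1) ^ (m_k (m_k - 1) / 2) L(Sym² E, 2 s_k) ^ (m_k (m_k + 1) / 2) · H(s)`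

with a function `H` which is holomorphic for `Re s_k > 5/6`, past the central point `s_k = 1`, and
not zero at real points. In particular the mean value of `∏ (L(E/F(θ), s_k) / L(E/F, s_k)) ^ m_k`
continues holomorphically to `Re s_k > 1`.
-/

set_option autoImplicit false

namespace Pool.Agent.Results.MP_bf61d2_nt.RandomBaseChange

open Filter Topology NumberField Polynomial Pool.Agent.KS6_22.MF

/-- **Mean values of the L-functions of one elliptic curve over all extensions of degree `N` of a
number field.** -/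
theorem result (F : Type) [Field F] [NumberField F] {ι : Type} [Fintype ι]
    (ω : Module.Basis ι ℤ (𝓞 F)) (a b : 𝓞 F) (hab : 4 * a ^ 3 + 27 * b ^ 2 ≠ 0) (N : ℕ)
    (hN : 2 ≤ N) (r : ℕ) (m : Fin r → ℤ) :
    ∃ H R : (Fin r → ℂ) → ℂ,
      (∀ s, R s = (∏ p ∈ Finset.univ.filter (fun p : Fin r × Fin r => p.1 ≤ p.2),
            dedekindZeta F (s p.1 + s p.2 - 1) ^
              (if p.1 = p.2 then m p.1 * (m p.1 - 1) / 2 else m p.1 * m p.2)) *
          (∏ p ∈ Finset.univ.filter (fun p : Fin r × Fin r => p.1 ≤ p.2),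
            LSym a b (s p.1 + s p.2) ^
              (if p.1 = p.2 then m p.1 * (m p.1 + 1) / 2 else m p.1 * m p.2)) * H s) ∧
      (∀ s : Fin r → ℂ, (∀ k, 3 / 2 < (s k).re) →
        Tendsto (fun B : Fin N → ι → ℕ => mean (FamB ω B) fun c => ∏ k, Lbase a b c (s k) ^ m k)
          atTop (𝓝 ((∏ k, Lser 6 a b (s k) ^ m k) * R s))) ∧
      DifferentiableOn ℂ R {s | ∀ k, 1 < (s k).re} ∧
      DifferentiableOn ℂ H {s | ∀ k, 5 / 6 < (s k).re} ∧
      ∀ s : Fin r → ℂ, (∀ k, 5 / 6 < (s k).re ∧ (s k).im = 0) → H s ≠ 0 := by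
  classical
  have h2 : ∀ p : Fin r × Fin r, Pool.Agent.T6.H9.MV.ex (fun j => - m j) p =
      if p.1 = p.2 then m p.1 * (m p.1 + 1) / 2 else m p.1 * m p.2 := by
    intro p
    unfold Pool.Agent.T6.H9.MV.ex
    split_ifs
    · congr 1
      ring
    · ring
  refine ⟨HB a b N m, _, fun s => rfl, fun s hs => ?_, ?_, HB_diff hab hN m,
    fun s hs => HB_ne hab hN m (fun k => (hs k).1) fun k => (hs k).2⟩
  · have h1 := tendsto_mainB ω hab hN m hs
    simp only [h2] at h1
    exact h1
  · refine (RB_diff a b (by omega : 0 < N) m).congr fun s hs => ?_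
    have h1 := RB_eq hab hN m hs
    simp only [h2] at h1
    exact h1.symm

end Pool.Agent.Results.MP_bf61d2_nt.RandomBaseChange
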